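import Mathlib

/-! Area of the points of a unit square within distance one of a point of it. -/

set_option autoImplicit false

namespace Pool.Agent.H283.TC

open MeasureTheory Set Real

theorem int_quarter : ∫ x in (0:ℝ)..1, √(1 - x ^ 2) = π / 4 := by
  have h := integral_sqrt_one_sub_sq
  have hc : Continuous fun x : ℝ => √(1 - x ^ 2) := by fun_prop
  have h1 : ∫ x in (-1 : ℝ)..0, √(1 - x ^ 2) = ∫ x in (0:ℝ)..1, √(1 - x ^ 2) := by
    have := intervalIntegral.integral_comp_neg (a := (0:ℝ)) (b := 1) (fun x : ℝ => √(1 - x ^ 2))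
    simp only [neg_zero, even_two, Even.neg_pow] at this
    exact this.symm
  rw [← intervalIntegral.integral_add_adjacent_intervals (b := (0:ℝ)) (hc.intervalIntegrable _ _)
    (hc.intervalIntegrable _ _), h1] at h
  linarith

theorem int_shift {b : ℝ} (h0 : 0 ≤ b) (h1 : b ≤ 1) :
    π / 4 ≤ ∫ x in (0:ℝ)..1, √(1 - (x - b) ^ 2) := by
  have hc : Continuous fun x : ℝ => √(1 - x ^ 2) := by fun_prop
  have e1 : ∫ x in (0:ℝ)..1, √(1 - (x - b) ^ 2) = ∫ x in (0 - b)..(1 - b), √(1 - x ^ 2) :=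
    intervalIntegral.integral_comp_sub_right (fun x : ℝ => √(1 - x ^ 2)) b
  have e2 : ∫ x in (-b)..0, √(1 - x ^ 2) = ∫ x in (0:ℝ)..b, √(1 - x ^ 2) := by
    have := intervalIntegral.integral_comp_neg (a := (0:ℝ)) (b := b) (fun x : ℝ => √(1 - x ^ 2))
    simp only [neg_zero, even_two, Even.neg_pow] at this
    exact this.symm
  have e3 : ∫ x in (b:ℝ)..1, √(1 - x ^ 2) = ∫ x in (0:ℝ)..(1 - b), √(1 - (x + b) ^ 2) := by
    have := intervalIntegral.integral_comp_add_right (a := (0:ℝ)) (b := 1 - b)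
      (fun x : ℝ => √(1 - x ^ 2)) b
    rw [this]
    congr 1 <;> ring
  have e4 : ∫ x in (0:ℝ)..(1 - b), √(1 - (x + b) ^ 2) ≤ ∫ x in (0:ℝ)..(1 - b), √(1 - x ^ 2) := by
    apply intervalIntegral.integral_mono_on (by linarith)
      ((by fun_prop : Continuous fun x : ℝ => √(1 - (x + b) ^ 2)).intervalIntegrable _ _)
      (hc.intervalIntegrable _ _)
    intro x hx
    apply Real.sqrt_le_sqrt
    nlinarith [hx.1]
  have e5 := intervalIntegral.integral_add_adjacent_intervals (a := (0:ℝ)) (b := b) (c := 1)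
    (hc.intervalIntegrable (μ := volume) _ _) (hc.intervalIntegrable _ _)
  have e6 := intervalIntegral.integral_add_adjacent_intervals (a := (0 - b:ℝ)) (b := 0) (c := 1 - b)
    (hc.intervalIntegrable (μ := volume) _ _) (hc.intervalIntegrable _ _)
  rw [zero_sub] at e6 e1
  rw [e1, ← e6, e2, ← int_quarter, ← e5, e3]
  linarith

/-- the planar set -/
def Pl (b0 b1 : ℝ) : Set (ℝ × ℝ) :=
  {z | (0 ≤ z.1 ∧ z.1 ≤ 1) ∧ (0 ≤ z.2 ∧ z.2 ≤ 1) ∧ (z.1 - b0) ^ 2 + (z.2 - b1) ^ 2 ≤ 1}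

theorem area {b0 b1 : ℝ} (h0 : 0 ≤ b0) (h0' : b0 ≤ 1) (h1 : 0 ≤ b1) (h1' : b1 ≤ 1) :
    ENNReal.ofReal (π / 4) ≤ volume (Pl b0 b1) := by
  set ρ : ℝ → ℝ := fun x => √(1 - (x - b0) ^ 2) with hρ
  have hρc : Continuous ρ := by rw [hρ]; fun_prop
  have hρ0 : ∀ x, 0 ≤ ρ x := fun x => Real.sqrt_nonneg _
  have hρ1 : ∀ x, ρ x ≤ 1 := fun x => by
    rw [hρ]; exact Real.sqrt_le_iff.mpr ⟨zero_le_one, by nlinarith [sq_nonneg (x - b0)]⟩
  set f : ℝ → ℝ := fun x => max 0 (b1 - ρ x) with hf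
  set g : ℝ → ℝ := fun x => min 1 (b1 + ρ x) with hg
  have hfc : Continuous f := by rw [hf]; fun_prop
  have hgc : Continuous g := by rw [hg]; fun_prop
  have hfg : ∀ x, f x + ρ x ≤ g x := by
    intro x
    rw [hf, hg]
    simp only
    have := hρ0 x
    have := hρ1 x
    rcases max_choice 0 (b1 - ρ x) with h | h <;> rcases min_choice 1 (b1 + ρ x) with h' | h' <;>
      rw [h, h'] <;> linarith
  have hsub : regionBetween f g (Icc 0 1) ⊆ Pl b0 b1 := by
    rintro ⟨x, y⟩ ⟨hx, hy⟩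
    simp only at hx hy
    refine ⟨hx, ⟨(le_max_left _ _).trans hy.1.le, hy.2.le.trans (min_le_left _ _)⟩, ?_⟩
    simp only
    have a1 : b1 - ρ x ≤ y := (le_max_right _ _).trans hy.1.le
    have a2 : y ≤ b1 + ρ x := hy.2.le.trans (min_le_right _ _)
    have a3 : (y - b1) ^ 2 ≤ ρ x ^ 2 := by
      apply sq_le_sq'
      · linarith
      · linarith
    have a4 : ρ x ^ 2 = 1 - (x - b0) ^ 2 := by
      rw [hρ]; simp only
      rw [Real.sq_sqrt]
      nlinarith [hx.1, hx.2]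
    linarith
  refine le_trans ?_ (measure_mono hsub)
  rw [Measure.volume_eq_prod, volume_regionBetween_eq_integral
    (hfc.continuousOn.integrableOn_Icc) (hgc.continuousOn.integrableOn_Icc) measurableSet_Icc
    (fun x _ => by linarith [hfg x, hρ0 x])]
  apply ENNReal.ofReal_le_ofReal
  rw [integral_Icc_eq_integral_Ioc, ← intervalIntegral.integral_of_le zero_le_one]
  refine (int_shift h0 h0').trans ?_
  apply intervalIntegral.integral_mono_on zero_le_one (hρc.intervalIntegrable _ _)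
    ((hgc.sub hfc).intervalIntegrable _ _)
  intro x _
  have := hfg x
  simp only [Pi.sub_apply]
  linarith

end Pool.Agent.H283.TC
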