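import Pool.Agent.H283.TC.Plane

/-! Unit cubes touching a unit cube along a set of positive area. -/

set_option autoImplicit false

namespace Pool.Agent.H283.TC

open MeasureTheory Set Real Topology Pointwise

abbrev E := EuclideanSpace ℝ (Fin 3)

/-- the cube `[0, 1]³` -/
def cube : Set E := {y | ∀ j, 0 ≤ y j ∧ y j ≤ 1}

/-- the cube `[-1, 2]³` -/
def box : Set E := {y | ∀ j, -1 ≤ y j ∧ y j ≤ 2}

theorem isClosed_Pl (b0 b1 : ℝ) : IsClosed (Pl b0 b1) := by
  have : Pl b0 b1 = {z : ℝ × ℝ | 0 ≤ z.1} ∩ {z | z.1 ≤ 1} ∩ ({z | 0 ≤ z.2} ∩ {z | z.2 ≤ 1}) ∩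
      {z | (z.1 - b0) ^ 2 + (z.2 - b1) ^ 2 ≤ 1} := by
    ext z
    simp only [Pl, mem_ofPred_eq, mem_inter_iff]
    tauto
  rw [this]
  refine (((isClosed_le (by fun_prop) (by fun_prop)).inter
    (isClosed_le (by fun_prop) (by fun_prop))).inter
    ((isClosed_le (by fun_prop) (by fun_prop)).inter
    (isClosed_le (by fun_prop) (by fun_prop)))).inter (isClosed_le (by fun_prop) (by fun_prop))

/-- (M) -/
theorem vol_part (k : Fin 3) {b : E} (hb : b ∈ cube) :
    ENNReal.ofReal (π / 4) ≤ volume {y : E | y ∈ cube ∧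
      ∑ j : Fin 2, (y (k.succAbove j) - b (k.succAbove j)) ^ 2 ≤ 1} := by
  set T : Set (Fin 2 → ℝ) :=
    MeasurableEquiv.finTwoArrow ⁻¹' (Pl (b (k.succAbove 0)) (b (k.succAbove 1))) with hT
  have hTm : MeasurableSet T := MeasurableEquiv.finTwoArrow.measurable (isClosed_Pl _ _).measurableSet
  set S' : Set (Fin 3 → ℝ) :=
    (MeasurableEquiv.piFinSuccAbove (fun _ : Fin 3 => ℝ) k) ⁻¹' (Icc (0:ℝ) 1 ×ˢ T) with hS'
  have hSm : MeasurableSet S' :=
    (MeasurableEquiv.piFinSuccAbove (fun _ : Fin 3 => ℝ) k).measurable (measurableSet_Icc.prod hTm)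
  have hset : {y : E | y ∈ cube ∧ ∑ j : Fin 2, (y (k.succAbove j) - b (k.succAbove j)) ^ 2 ≤ 1} =
      WithLp.ofLp ⁻¹' S' := by
    ext y
    simp only [mem_ofPred_eq, mem_preimage, hS', hT, mem_prod, Pl, cube,
      MeasurableEquiv.piFinSuccAbove_apply, MeasurableEquiv.finTwoArrow_apply, Fin.sum_univ_two,
      Fin.insertNthEquiv_symm_apply, Fin.removeNth, mem_Icc]
    rw [Fin.forall_iff_succAbove k, Fin.forall_fin_two]
    tauto
  rw [hset, (PiLp.volume_preserving_ofLp (Fin 3)).measure_preimage hSm.nullMeasurableSet, hS',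
    (volume_preserving_piFinSuccAbove (fun _ : Fin 3 => ℝ) k).measure_preimage
      (measurableSet_Icc.prod hTm).nullMeasurableSet, Measure.volume_eq_prod, Measure.prod_prod,
    Real.volume_Icc, sub_zero, ENNReal.ofReal_one, one_mul, hT,
    (volume_preserving_finTwoArrow ℝ).measure_preimage (isClosed_Pl _ _).measurableSet.nullMeasurableSet]
  exact area (hb _).1 (hb _).2 (hb _).1 (hb _).2

/-- a set with two constant coordinates has area zero -/
theorem null_of_two {A : Set E} {i j : Fin 3} (hij : i ≠ j) {c d : ℝ}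
    (h : ∀ p ∈ A, p i = c ∧ p j = d) : Measure.hausdorffMeasure 2 A = 0 := by
  have aux : ∀ i j : Fin 3, i ≠ j → ∃ k : Fin 3, ∀ l, l = i ∨ l = j ∨ l = k := by decide
  obtain ⟨k, hk⟩ := aux i j hij
  set c0 : E := WithLp.toLp 2 (fun l => if l = i then c else if l = j then d else 0) with hc0
  by_cases hki : k = i ∨ k = j
  · exfalso
    have : ∀ i j k : Fin 3, (∀ l, l = i ∨ l = j ∨ l = k) → ¬ (k = i ∨ k = j) := by decide
    exact this i j k hk hki
  push Not at hki
  set g : ℝ → E := fun t => c0 + t • EuclideanSpace.single k 1 with hg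
  have hgc : ContDiff ℝ 1 g := by
    rw [hg]; fun_prop
  have hsub : A ⊆ range g := by
    intro p hp
    refine ⟨p k, ?_⟩
    ext l
    rcases hk l with rfl | rfl | rfl
    · simp [hg, hc0, (h p hp).1, Ne.symm hki.1, hki.1]
    · simp [hg, hc0, (h p hp).2, Ne.symm hki.2, hki.2, Ne.symm hij]
    · simp [hg, hc0, hki.1, hki.2]
  have h1 : dimH A ≤ 1 := by
    refine (dimH_mono hsub).trans (hgc.dimH_range_le.trans ?_)
    simp
  have h2 := hausdorffMeasure_of_dimH_lt (s := A) (d := 2)
    (lt_of_le_of_lt h1 (by exact_mod_cast one_lt_two))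
  exact_mod_cast h2

theorem fsum (f : E →L[ℝ] ℝ) (v : E) :
    f v = ∑ l, v l * f (EuclideanSpace.single l 1) := by
  conv_lhs => rw [← (EuclideanSpace.basisFun (Fin 3) ℝ).sum_repr v]
  rw [map_sum]
  refine Finset.sum_congr rfl fun l _ => ?_
  rw [map_smul, smul_eq_mul]
  simp

theorem coord_of_max {f : E →L[ℝ] ℝ} {p : E} (hp : p ∈ cube) (hmax : ∀ a ∈ cube, f a ≤ f p)
    (l : Fin 3) (hl : f (EuclideanSpace.single l 1) ≠ 0) :
    p l = if 0 < f (EuclideanSpace.single l 1) then 1 else 0 := by
  have key : ∀ t : ℝ, 0 ≤ p l + t → p l + t ≤ 1 → t * f (EuclideanSpace.single l 1) ≤ 0 := by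
    intro t h0 h1
    have := hmax (p + t • EuclideanSpace.single l 1) (by
      intro i
      by_cases h : i = l
      · subst h
        simpa using ⟨h0, h1⟩
      · have := hp i
        simpa [h] using this)
    rw [map_add, map_smul, smul_eq_mul] at this
    linarith
  split_ifs with h
  · have := key (1 - p l) (by linarith) (by linarith)
    have h2 := (hp l).2
    nlinarith
  · have h' : f (EuclideanSpace.single l 1) < 0 := lt_of_le_of_ne (not_lt.mp h) hl
    have := key (- p l) (by linarith) (by linarith)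
    have h2 := (hp l).1
    nlinarith

/-- a functional whose maximum over the cube is attained on a set of positive area is a multiple of
a coordinate -/
theorem one_coord {f : E →L[ℝ] ℝ} (hf : f ≠ 0) {A : Set E} (hA : A ⊆ cube)
    (hmax : ∀ p ∈ A, ∀ a ∈ cube, f a ≤ f p) (hpos : 0 < Measure.hausdorffMeasure 2 A) :
    ∃ (j : Fin 3) (r : ℝ), r ≠ 0 ∧ ∀ v, f v = v j * r := by
  have hex : ∃ j, f (EuclideanSpace.single j 1) ≠ 0 := by
    by_contra hcon
    push Not at hcon
    apply hf
    ext v
    rw [fsum]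
    simp [hcon]
  obtain ⟨j, hj⟩ := hex
  have hoth : ∀ i, i ≠ j → f (EuclideanSpace.single i 1) = 0 := by
    intro i hij
    by_contra hi
    have := null_of_two hij (A := A) (fun p hp =>
      ⟨coord_of_max (hA hp) (hmax p hp) i hi, coord_of_max (hA hp) (hmax p hp) j hj⟩)
    rw [this] at hpos
    exact lt_irrefl _ hpos
  refine ⟨j, _, hj, fun v => ?_⟩
  rw [fsum, Finset.sum_eq_single j]
  · intro i _ hi
    rw [hoth i hi, mul_zero]
  · simp

theorem cube_eq : cube = {y : E | ∀ j, 0 ≤ y j} ∩ {y : E | ∀ j, y j ≤ 1} := by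
  ext y
  simp only [cube, mem_ofPred_eq, mem_inter_iff, forall_and]

theorem isClosed_cube : IsClosed cube := by
  have : cube = ⋂ j : Fin 3, ({y : E | 0 ≤ y j} ∩ {y : E | y j ≤ 1}) := by
    ext y
    simp [cube]
  rw [this]
  exact isClosed_iInter fun j => (isClosed_le (by fun_prop) (by fun_prop)).inter
    (isClosed_le (by fun_prop) (by fun_prop))

theorem isClosed_box : IsClosed box := by
  have : box = ⋂ j : Fin 3, ({y : E | -1 ≤ y j} ∩ {y : E | y j ≤ 2}) := by
    ext y
    simp [box]
  rw [this]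
  exact isClosed_iInter fun j => (isClosed_le (by fun_prop) (by fun_prop)).inter
    (isClosed_le (by fun_prop) (by fun_prop))

theorem convex_cube : Convex ℝ cube := by
  intro x hx y hy a b ha hb hab j
  have h1 := hx j
  have h2 := hy j
  simp only [PiLp.add_apply, PiLp.smul_apply, smul_eq_mul]
  constructor
  · have := mul_nonneg ha h1.1
    have := mul_nonneg hb h2.1
    linarith
  · have := mul_le_mul_of_nonneg_left h1.2 ha
    have := mul_le_mul_of_nonneg_left h2.2 hb
    linarith

theorem interior_cube_nonempty : (interior cube).Nonempty := by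
  have hopen : IsOpen (⋂ j : Fin 3, ({y : E | 0 < y j} ∩ {y : E | y j < 1})) :=
    isOpen_iInter_of_finite fun j => (isOpen_lt (by fun_prop) (by fun_prop)).inter
      (isOpen_lt (by fun_prop) (by fun_prop))
  refine ⟨WithLp.toLp 2 (fun _ => 1 / 2), interior_maximal ?_ hopen ?_⟩
  · intro y hy j
    have := mem_iInter.mp hy j
    exact ⟨this.1.le, this.2.le⟩
  · simp only [mem_iInter]
    intro j
    constructor
    · show (0:ℝ) < 1 / 2
      norm_num
    · show (1:ℝ) / 2 < 1
      norm_num

/-- the linear part of an isometry -/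
theorem lin_part (e : E ≃ᵢ E) : ∃ R : E ≃ₗᵢ[ℝ] E, ∀ y, e y = R y + e 0 := by
  refine ⟨e.toRealAffineIsometryEquiv.linearIsometryEquiv, fun y => ?_⟩
  have h := e.toRealAffineIsometryEquiv.map_vadd 0 y
  simpa using h

/-- (K) -/
theorem align (e : E ≃ᵢ E) (R : E ≃ₗᵢ[ℝ] E) (hR : ∀ y, e y = R y + e 0)
    (hdis : Disjoint (interior cube) (interior (e '' cube)))
    (hpos : 0 < Measure.hausdorffMeasure 2 (cube ∩ e '' cube)) :
    ∃ j k : Fin 3, ∀ v, (R v j) ^ 2 = (v k) ^ 2 := by
  have hCe : e '' cube = (fun y => R y + e 0) '' cube := by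
    refine image_congr fun y _ => hR y
  have hCconv : Convex ℝ (e '' cube) := by
    have h1 : Convex ℝ (R '' cube) := convex_cube.is_linear_image R.toLinearEquiv.toLinearMap.isLinear
    have h2 : e '' cube = (fun z => z + e 0) '' (R '' cube) := by
      rw [hCe, image_image]
    rw [h2]
    have : (fun z : E => z + e 0) '' (R '' cube) = R '' cube + ({e 0} : Set E) := by
      rw [add_singleton]
    rw [this]
    exact h1.add (convex_singleton _)
  have hCint : (interior (e '' cube)).Nonempty := by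
    have := e.toHomeomorph.image_interior cube
    have h2 : interior (e '' cube) = e '' interior cube := this.symm
    rw [h2]
    exact interior_cube_nonempty.image _
  obtain ⟨f, u, h1, h2⟩ := geometric_hahn_banach_open convex_cube.interior isOpen_interior
    hCconv.interior hdis
  have hf : f ≠ 0 := by
    rintro rfl
    obtain ⟨a, ha⟩ := interior_cube_nonempty
    obtain ⟨b, hb⟩ := hCint
    have := h1 a ha
    have := h2 b hb
    simp at *
    linarith
  have h1' : ∀ a ∈ cube, f a ≤ u := by
    have hsub : closure (interior cube) ⊆ {a | f a ≤ u} :=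
      closure_minimal (fun a ha => (h1 a ha).le) (isClosed_le f.continuous continuous_const)
    rw [convex_cube.closure_interior_eq_closure_of_nonempty_interior interior_cube_nonempty,
      isClosed_cube.closure_eq] at hsub
    exact hsub
  have hCcl : IsClosed (e '' cube) := e.toHomeomorph.isClosedMap _ isClosed_cube
  have h2' : ∀ b ∈ e '' cube, u ≤ f b := by
    have hsub : closure (interior (e '' cube)) ⊆ {a | u ≤ f a} :=
      closure_minimal (fun a ha => h2 a ha) (isClosed_le continuous_const f.continuous)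
    rw [hCconv.closure_interior_eq_closure_of_nonempty_interior hCint, hCcl.closure_eq] at hsub
    exact hsub
  obtain ⟨j, r, hr, hfj⟩ := one_coord hf (A := cube ∩ e '' cube) inter_subset_left
    (fun p hp a ha => (h1' a ha).trans (h2' p hp.2)) hpos
  -- the other side
  set g : E →L[ℝ] ℝ := -(f.comp (R : E →L[ℝ] E)) with hg
  have hgv : ∀ v, g v = - f (R v) := fun v => rfl
  have hg0 : g ≠ 0 := by
    intro h
    apply hf
    ext v
    have := congrArg (fun F : E →L[ℝ] ℝ => F (R.symm v)) h
    simp only [hgv, LinearIsometryEquiv.apply_symm_apply, zero_apply,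
      neg_eq_zero] at this
    simpa using this
  set A' : Set E := {y | y ∈ cube ∧ e y ∈ cube} with hA'
  have hA'im : e '' A' = cube ∩ e '' cube := by
    ext z
    constructor
    · rintro ⟨y, hy, rfl⟩
      exact ⟨hy.2, y, hy.1, rfl⟩
    · rintro ⟨hz, y, hy, rfl⟩
      exact ⟨y, ⟨hy, hz⟩, rfl⟩
  have hpos' : 0 < Measure.hausdorffMeasure 2 A' := by
    rw [← e.hausdorffMeasure_image 2 A', hA'im]
    exact hpos
  obtain ⟨k, s, hs, hgk⟩ := one_coord hg0 (A := A') (fun y hy => hy.1)
    (fun p hp a ha => by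
      have t1 : f (e p) ≤ f (e a) := (h1' _ hp.2).trans (h2' _ ⟨a, ha, rfl⟩)
      rw [hR p, hR a, map_add, map_add] at t1
      rw [hgv, hgv]
      linarith) hpos'
  refine ⟨j, k, ?_⟩
  have hrel : ∀ v, R v j * r = - (v k * s) := by
    intro v
    rw [← hfj, ← hgk, hgv, neg_neg]
  set q : ℝ := - s / r with hq
  have hrel' : ∀ v, R v j = v k * q := by
    intro v
    have := hrel v
    rw [hq]
    field_simp
    linarith
  have hcoord : ∀ (v : E) (i : Fin 3), |v i| ≤ ‖v‖ := fun v i => by
    simpa using PiLp.norm_apply_le v i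
  have q1 : |q| ≤ 1 := by
    have h := hcoord (R (EuclideanSpace.single k 1)) j
    rw [hrel', LinearIsometryEquiv.norm_map] at h
    simpa using h
  have q2 : 1 ≤ |q| := by
    have h := hrel' (R.symm (EuclideanSpace.single j 1))
    rw [LinearIsometryEquiv.apply_symm_apply] at h
    have h3 : |R.symm (EuclideanSpace.single j 1) k| ≤ 1 := by
      have := hcoord (R.symm (EuclideanSpace.single j (1:ℝ))) k
      rw [LinearIsometryEquiv.norm_map] at this
      simpa using this
    have h4 : (1:ℝ) = |R.symm (EuclideanSpace.single j 1) k| * |q| := by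
      rw [← abs_mul, ← h]
      simp
    nlinarith [abs_nonneg q]
  have q3 : q ^ 2 = 1 := by
    rw [← sq_abs, le_antisymm q1 q2, one_pow]
  intro v
  rw [hrel', mul_pow, q3, mul_one]

end Pool.Agent.H283.TC
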